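import Pool.Agent.Helper83.Rel.Clear
import Pool.Agent.Helper69.CB.TriE

/-!
# T-REL, piece S1: specialisation of a coprime tuple
-/

set_option autoImplicit false

namespace Pool.Agent.Helper60.Rel

open Pool.Agent.Helper49.CB Pool.Agent.Helper69.CB Pool.Agent.Helper83.Rel MvPolynomial

theorem finSucc_map' {R S : Type*} [CommRing R] [CommRing S] (φ : R →+* S) {n : ℕ}
    (f : MvPolynomial (Fin (n + 1)) R) :
    finSuccEquiv S n (map φ f) = (finSuccEquiv R n f).map (map φ) := by
  ext i m
  rw [finSuccEquiv_coeff_coeff, coeff_map, Polynomial.coeff_map, coeff_map,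
    finSuccEquiv_coeff_coeff]

/-- **S1.** a tuple which is coprime over the field of fractions specialises to a coprime tuple,
outside a divisor -/
theorem spec_cop (R : Type) [CommRing R] [IsDomain R] (L : Type) [Field L] [Algebra R L]
    [IsFractionRing R L] (n : ℕ) : ∀ (T : Finset (MvPolynomial (Fin n) R)),
    (∀ q : MvPolynomial (Fin n) L, Irreducible q → ∃ f ∈ T, ¬ q ∣ map (algebraMap R L) f) →
    ∃ D : R, D ≠ 0 ∧ ∀ (K : Type) [Field K] (φ : R →+* K), φ D ≠ 0 →
      ∀ q : MvPolynomial (Fin n) K, Irreducible q → ∃ f ∈ T, ¬ q ∣ map φ f := by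
  classical
  induction n with
  | zero =>
    intro T _
    exact ⟨1, one_ne_zero, fun K _ φ _ q hq => absurd hq (not_irreducible_fin0 q)⟩
  | succ n ih =>
    intro T hT
    -- the coefficient tuple
    obtain ⟨D', hD', hD⟩ := ih ((T.image (finSuccEquiv R n)).biUnion Polynomial.coeffs) (by
      intro q hq
      have hC : Irreducible (Polynomial.C q) := irreducible_C hq
      have hC' : Irreducible ((finSuccEquiv L n).symm (Polynomial.C q)) :=
        (MulEquiv.irreducible_iff (finSuccEquiv L n).symm).2 hC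
      obtain ⟨f, hf, hfq⟩ := hT _ hC'
      have h1 : ¬ Polynomial.C q ∣ (finSuccEquiv R n f).map (map (algebraMap R L)) := by
        intro h
        apply hfq
        rw [← finSucc_map'] at h
        have h2 := map_dvd (finSuccEquiv L n).symm h
        rwa [AlgEquiv.symm_apply_apply] at h2
      rw [Polynomial.C_dvd_iff_dvd_coeff] at h1
      push Not at h1
      obtain ⟨i, hi⟩ := h1
      rw [Polynomial.coeff_map] at hi
      refine ⟨(finSuccEquiv R n f).coeff i, ?_, hi⟩
      rw [Finset.mem_biUnion]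
      refine ⟨_, Finset.mem_image_of_mem _ hf, ?_⟩
      apply Polynomial.coeff_mem_coeffs
      intro h0
      rw [h0, map_zero] at hi
      exact hi (dvd_zero q))
    -- Bezout in the first variable
    obtain ⟨h, ρ, hρ, hs⟩ := rel_bezout (L := L) (T.image (finSuccEquiv R n)) (by
      intro q hq
      have hq' : Irreducible ((finSuccEquiv L n).symm q) :=
        (MulEquiv.irreducible_iff (finSuccEquiv L n).symm).2 hq
      obtain ⟨f, hf, hfq⟩ := hT _ hq'
      refine ⟨_, Finset.mem_image_of_mem _ (Finset.mem_image_of_mem _ hf), ?_⟩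
      intro h
      apply hfq
      rw [← finSucc_map'] at h
      have h2 := map_dvd (finSuccEquiv L n).symm h
      rwa [AlgEquiv.symm_apply_apply] at h2)
    obtain ⟨m, hm⟩ := MvPolynomial.ne_zero_iff.1 hρ
    refine ⟨D' * ρ.coeff m, mul_ne_zero hD' hm, ?_⟩
    intro K _ φ hφ q hq
    rw [map_mul] at hφ
    by_contra hcon
    push Not at hcon
    have hQ : Irreducible (finSuccEquiv K n q) :=
      (MulEquiv.irreducible_iff (finSuccEquiv K n)).2 hq
    have hdiv : ∀ f ∈ T, finSuccEquiv K n q ∣ (finSuccEquiv R n f).map (map φ) := by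
      intro f hf
      rw [← finSucc_map']
      exact map_dvd (finSuccEquiv K n) (hcon f hf)
    have hρφ : map φ ρ ≠ 0 := by
      intro h0
      have h1 := congrArg (coeff m) h0
      rw [coeff_map, coeff_zero] at h1
      exact right_ne_zero_of_mul hφ h1
    have hdρ : finSuccEquiv K n q ∣ Polynomial.C (map φ ρ) := by
      have h1 := congrArg (Polynomial.map (map φ)) hs
      rw [Polynomial.map_sum, Polynomial.map_C] at h1
      rw [← h1]
      refine Finset.dvd_sum ?_
      intro F hF
      obtain ⟨f, hf, rfl⟩ := Finset.mem_image.1 hF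
      rw [Polynomial.map_mul]
      exact (hdiv f hf).mul_left _
    have hdeg : (finSuccEquiv K n q).natDegree = 0 := by
      have h1 := Polynomial.natDegree_le_of_dvd hdρ (by rwa [Ne, Polynomial.C_eq_zero])
      rw [Polynomial.natDegree_C] at h1
      omega
    obtain ⟨q', hq'⟩ := Polynomial.natDegree_eq_zero.1 hdeg
    rw [← hq'] at hQ hdiv
    have hq'irr : Irreducible q' := irreducible_of_C hQ
    obtain ⟨c, hc, hcd⟩ := hD K φ (left_ne_zero_of_mul hφ) q' hq'irr
    obtain ⟨F, hF, hcF⟩ := Finset.mem_biUnion.1 hc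
    obtain ⟨f, hf, rfl⟩ := Finset.mem_image.1 hF
    obtain ⟨i, -, rfl⟩ := Polynomial.mem_coeffs_iff.1 hcF
    have h1 := (Polynomial.C_dvd_iff_dvd_coeff _ _).1 (hdiv f hf) i
    rw [Polynomial.coeff_map] at h1
    exact hcd h1

/-- **S1**, exact form of the frame -/
theorem cop_spec {K : Type} [Field K] {R : Type} [CommRing R] [IsDomain R] [Algebra K R]
    (L : Type) [Field L] [Algebra R L] [IsFractionRing R L] (n : ℕ) :
    ∀ (T : Finset (MvPolynomial (Fin n) R)),
      (∀ q : MvPolynomial (Fin n) L, Irreducible q → ∃ f ∈ T, ¬ q ∣ map (algebraMap R L) f) →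
      ∃ H : R, H ≠ 0 ∧ ∀ φ : R →ₐ[K] K, φ H ≠ 0 → ∀ q : MvPolynomial (Fin n) K, Irreducible q →
        ∃ f ∈ T, ¬ q ∣ map (φ : R →+* K) f := by
  intro T hT
  obtain ⟨D, hD, h⟩ := spec_cop R L n T hT
  exact ⟨D, hD, fun φ hφ => h K (φ : R →+* K) hφ⟩

end Pool.Agent.Helper60.Rel
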